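import Pool.Agent.H482R3.EA.Stm

set_option autoImplicit false

/-!
# The word problem of a free group is computable
-/

namespace Pool.Agent.H482R3.EA

namespace FWaux

variable {α : Type} [DecidableEq α]

/-- reduction by a fold -/
def myred (L : List (α × Bool)) : List (α × Bool) :=
  L.foldr (fun x ih => List.casesOn ih [x] fun y t =>
    if x.1 = y.1 ∧ x.2 = !y.2 then t else x :: y :: t) []

theorem myred_eq (L : List (α × Bool)) : myred L = FreeGroup.reduce L := by
  induction L with
  | nil => rfl
  | cons x L ih =>
    rw [FreeGroup.reduce.cons, ← ih]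
    rfl

theorem primrec_myred [Primcodable α] : Primrec (myred (α := α)) := by
  unfold myred
  refine Primrec.list_foldr (f := fun L : List (α × Bool) => L) (g := fun _ => [])
    (h := fun _ (p : (α × Bool) × List (α × Bool)) => List.casesOn p.2 [p.1] fun y t =>
      if p.1.1 = y.1 ∧ p.1.2 = !y.2 then t else p.1 :: y :: t) Primrec.id (Primrec.const []) ?_
  refine Primrec.list_casesOn
    (f := fun q : List (α × Bool) × ((α × Bool) × List (α × Bool)) => q.2.2)
    (g := fun q => [q.2.1])
    (h := fun q (yt : (α × Bool) × List (α × Bool)) =>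
      if q.2.1.1 = yt.1.1 ∧ q.2.1.2 = !yt.1.2 then yt.2 else q.2.1 :: yt.1 :: yt.2)
    (Primrec.snd.comp Primrec.snd) ?_ ?_
  · exact Primrec.list_cons.comp (Primrec.fst.comp Primrec.snd) (Primrec.const [])
  · have q21 : Primrec (fun z : (List (α × Bool) × ((α × Bool) × List (α × Bool))) ×
        ((α × Bool) × List (α × Bool)) => z.1.2.1) :=
      Primrec.fst.comp (Primrec.snd.comp Primrec.fst)
    have y1 : Primrec (fun z : (List (α × Bool) × ((α × Bool) × List (α × Bool))) ×
        ((α × Bool) × List (α × Bool)) => z.2.1) := Primrec.fst.comp Primrec.snd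
    have t1 : Primrec (fun z : (List (α × Bool) × ((α × Bool) × List (α × Bool))) ×
        ((α × Bool) × List (α × Bool)) => z.2.2) := Primrec.snd.comp Primrec.snd
    refine Primrec.ite (PrimrecPred.and ?_ ?_) t1 ?_
    · exact Primrec.eq.comp (Primrec.fst.comp q21) (Primrec.fst.comp y1)
    · exact Primrec.eq.comp (Primrec.snd.comp q21) (Primrec.not.comp (Primrec.snd.comp y1))
    · exact Primrec.list_cons.comp q21 (Primrec.list_cons.comp y1 t1)

theorem fw [Primcodable α] : ComputablePred (fun L : List (α × Bool) => FreeGroup.mk L = 1) := by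
  have h : PrimrecPred (fun L : List (α × Bool) => myred L = []) :=
    Primrec.eq.comp primrec_myred (Primrec.const [])
  refine h.computablePred.of_eq (fun L => ?_)
  rw [myred_eq, ← FreeGroup.toWord_mk, FreeGroup.toWord_eq_nil_iff]

end FWaux

open FWaux

theorem FWaux.ev_of_eq_mk {α : Type} (u : W α) :
    ev (FreeGroup.of : α → FreeGroup α) u = FreeGroup.mk u := by
  induction u with
  | nil => rfl
  | cons x u ih =>
    have h1 : (FreeGroup.mk (x :: u) : FreeGroup α) = FreeGroup.mk [x] * FreeGroup.mk u := by
      rw [FreeGroup.mul_mk]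
      rfl
    rw [h1, ← ih]
    unfold ev
    rw [List.map_cons, List.prod_cons]
    congr 1
    obtain ⟨a, b⟩ := x
    cases b
    · rfl
    · rfl

theorem t_FW : S_FW := by
  intro α h1 h2
  refine (fw (α := α)).of_eq (fun L => ?_)
  rw [ev_of_eq_mk]

end Pool.Agent.H482R3.EA
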